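import Pool.Agent.Helper70.MM.Goals5

open MeasureTheory Set Metric Filter
open scoped ENNReal RealInnerProductSpace Topology
open Pool.Agent.Results.MP_91ee6f_gt
open Pool.Agent.Helper70.MM

namespace Pool.Agent.Helper32.MM5

lemma rh_nonneg {n : ℕ} {e : En n} (he : ‖e‖ = 1) (y : En n) : 0 ≤ rh e y := by
  unfold rh
  have h := abs_real_inner_le_norm y e
  rw [he, mul_one] at h
  have h2 : (inner ℝ y e : ℝ) ^ 2 ≤ ‖y‖ ^ 2 := by
    rw [← sq_abs]
    exact pow_le_pow_left₀ (abs_nonneg _) h 2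
  linarith

lemma rh_le {n : ℕ} (e y : En n) : rh e y ≤ ‖y‖ ^ 2 := by
  unfold rh
  have := sq_nonneg (inner ℝ y e : ℝ)
  linarith

lemma dist_ge {n : ℕ} {e y : En n} (he : ‖e‖ = 1) {R r : ℝ} (hy : ‖y‖ = R) (hr : 0 ≤ r) :
    R - r ≤ dist (r • e) y := by
  rw [dist_eq_norm]
  have h := norm_sub_norm_le y (r • e)
  rw [norm_smul, he, hy, mul_one, Real.norm_eq_abs, abs_of_nonneg hr] at h
  rwa [norm_sub_rev]

lemma measurable_rh {n : ℕ} (e : En n) : Measurable (rh e) := by
  unfold rh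
  have h1 : Measurable (fun y : En n => (inner ℝ y e : ℝ)) := by
    exact (continuous_id.inner continuous_const).measurable
  fun_prop

lemma measurable_dist_pt {n : ℕ} (x : En n) : Measurable (fun y : En n => dist x y) :=
  (continuous_const.dist continuous_id).measurable

lemma gg_ge {n : ℕ} (hn : 3 ≤ n) {e : En n} (he : ‖e‖ = 1) {R r : ℝ} (hR : 0 < R) (hr : 0 < r)
    (hr2 : r ≤ R / 2) : -(2 * (R ^ 2 * om 3 (R / 2))) ≤ GG e R r := by
  have hC : 0 < om 3 (R / 2) := om_pos 3 (by positivity)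
  have hC' : 0 < R ^ 2 * om 3 (R / 2) := by positivity
  obtain ⟨hprob, hae, -⟩ := fSPH1 n (by omega) R
  have hae := hae hR.le
  have hn' : (3 : ℝ) ≤ n := by exact_mod_cast hn
  unfold GG
  by_cases hint : Integrable (fun y => (om 2 (dist (r • e) y) -
      2 * rh e y / ((n : ℝ) - 1) * om 3 (dist (r • e) y) +
      rh e y ^ 2 / (((n : ℝ) - 1) * ((n : ℝ) + 1)) * om 4 (dist (r • e) y))) (sphUnif n R)
  · have h1 : ∫ _y, -(2 * (R ^ 2 * om 3 (R / 2))) ∂(sphUnif n R) =
        -(2 * (R ^ 2 * om 3 (R / 2))) := by simp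
    rw [← h1]
    refine integral_mono_ae (integrable_const _) hint ?_
    filter_upwards [hae] with y hy
    have hd : R / 2 ≤ dist (r • e) y := by
      have := dist_ge he hy hr.le
      linarith
    have hd0 : 0 < dist (r • e) y := by linarith [half_pos hR]
    set d := dist (r • e) y
    have h2 := om_pos 2 hd0
    have h3 := om_pos 3 hd0
    have h4 := om_pos 4 hd0
    have h3' : om 3 d ≤ om 3 (R / 2) := om_le 3 (half_pos hR) hd
    have hrh := rh_nonneg he y
    have hrh' := rh_le e y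
    rw [hy] at hrh'
    have h5 : 2 * rh e y / ((n : ℝ) - 1) ≤ R ^ 2 := by
      rw [div_le_iff₀ (by linarith)]
      nlinarith [sq_nonneg R]
    have h6 : 0 ≤ 2 * rh e y / ((n : ℝ) - 1) := by
      apply div_nonneg (by linarith) (by linarith)
    have h7 : 2 * rh e y / ((n : ℝ) - 1) * om 3 d ≤ R ^ 2 * om 3 (R / 2) :=
      mul_le_mul h5 h3' h3.le (by positivity)
    have h8 : 0 ≤ rh e y ^ 2 / (((n : ℝ) - 1) * ((n : ℝ) + 1)) * om 4 d := by
      apply mul_nonneg _ h4.le
      apply div_nonneg (by positivity)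
      apply mul_nonneg <;> linarith
    show -(2 * (R ^ 2 * om 3 (R / 2))) ≤ om 2 d - 2 * rh e y / ((n : ℝ) - 1) * om 3 d +
      rh e y ^ 2 / (((n : ℝ) - 1) * ((n : ℝ) + 1)) * om 4 d
    linarith
  · rw [integral_undef hint]
    linarith

lemma ff_mono (hS : SDER) {n : ℕ} (hn : 3 ≤ n) {e : En n} (he : ‖e‖ = 1) {R r₁ r₂ : ℝ}
    (hR : 0 < R) (hr₁ : 0 < r₁) (h12 : r₁ ≤ r₂) (hr₂ : r₂ ≤ R / 2) :
    -(R ^ 2 * om 3 (R / 2)) * (r₂ ^ 2 - r₁ ^ 2) ≤ FF e R r₂ - FF e R r₁ := by
  set C := R ^ 2 * om 3 (R / 2) with hC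
  have hder : ∀ r ∈ Icc r₁ r₂, HasDerivAt (fun r => FF e R r + C * r ^ 2)
      (r * GG e R r + C * (2 * r)) r := by
    intro r hr
    have h1 := (hS n hn e he R r hR.le (by linarith [hr.1])
      (by have := hr.2; intro h; rw [h] at this; linarith)).2
    have h2 : HasDerivAt (fun r : ℝ => C * r ^ 2) (C * (2 * r)) r := by
      have := (hasDerivAt_pow 2 r).const_mul C
      simpa using this
    exact h1.add h2
  have hmono : MonotoneOn (fun r => FF e R r + C * r ^ 2) (Icc r₁ r₂) := by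
    refine monotoneOn_of_deriv_nonneg (convex_Icc _ _)
      (fun r hr => (hder r hr).continuousAt.continuousWithinAt)
      (fun r hr => (hder r (interior_subset hr)).differentiableAt.differentiableWithinAt) ?_
    intro r hr
    have hr' := interior_subset hr
    rw [(hder r hr').deriv]
    have h1 := gg_ge hn he hR (by linarith [hr'.1] : 0 < r) (by linarith [hr'.2])
    have h2 : 0 < r := by linarith [hr'.1]
    rw [← hC] at h1
    nlinarith
  have := hmono (left_mem_Icc.mpr h12) (right_mem_Icc.mpr h12) h12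
  simp only at this
  linarith

lemma ff_tendsto {n : ℕ} (hn : 3 ≤ n) {e : En n} (he : ‖e‖ = 1) {R : ℝ} (hR : 0 < R) :
    Tendsto (fun r => FF e R r) (𝓝[>] 0) (𝓝 (FF e R 0)) := by
  obtain ⟨hprob, hae, -⟩ := fSPH1 n (by omega) R
  have hae := hae hR.le
  have hn' : (3 : ℝ) ≤ n := by exact_mod_cast hn
  have hR2 : 0 < R / 2 := half_pos hR
  unfold FF
  refine tendsto_integral_filter_of_dominated_convergence
    (fun _ => R ^ 2 * om 2 (R / 2) + om 1 (R / 2)) ?_ ?_ (integrable_const _) ?_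
  · refine Eventually.of_forall fun r => ?_
    have h1 := measurable_rh e
    have h2 := measurable_dist_pt (r • e)
    have h3 : Measurable (fun y : En n => om 2 (dist (r • e) y)) := (om_measurable 2).comp h2
    have h4 : Measurable (fun y : En n => om 1 (dist (r • e) y)) := (om_measurable 1).comp h2
    exact (((h1.div_const _).mul h3).sub h4).aestronglyMeasurable
  · have hev : ∀ᶠ r : ℝ in 𝓝[>] 0, 0 < r ∧ r ≤ R / 2 := by
      have h1 : ∀ᶠ r : ℝ in 𝓝[>] 0, r ∈ Ioi (0 : ℝ) := self_mem_nhdsWithin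
      have h2 : ∀ᶠ r : ℝ in 𝓝[>] 0, r ≤ R / 2 :=
        nhdsWithin_le_nhds (Iic_mem_nhds hR2)
      filter_upwards [h1, h2] with r a b using ⟨a, b⟩
    filter_upwards [hev] with r hr
    filter_upwards [hae] with y hy
    have hd : R / 2 ≤ dist (r • e) y := by
      have := dist_ge he hy hr.1.le
      linarith [hr.2]
    have hd0 : 0 < dist (r • e) y := by linarith
    set d := dist (r • e) y
    have h1 := om_pos 1 hd0
    have h2 := om_pos 2 hd0
    have h1' : om 1 d ≤ om 1 (R / 2) := om_le 1 hR2 hd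
    have h2' : om 2 d ≤ om 2 (R / 2) := om_le 2 hR2 hd
    have hrh := rh_nonneg he y
    have hrh' := rh_le e y
    rw [hy] at hrh'
    have h5 : rh e y / ((n : ℝ) - 1) ≤ R ^ 2 := by
      rw [div_le_iff₀ (by linarith)]
      nlinarith [sq_nonneg R]
    have h6 : 0 ≤ rh e y / ((n : ℝ) - 1) := by
      apply div_nonneg (by linarith) (by linarith)
    have h7 : rh e y / ((n : ℝ) - 1) * om 2 d ≤ R ^ 2 * om 2 (R / 2) :=
      mul_le_mul h5 h2' h2.le (by positivity)
    have h8 : 0 ≤ rh e y / ((n : ℝ) - 1) * om 2 d := mul_nonneg h6 h2.le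
    rw [Real.norm_eq_abs, abs_le]
    constructor <;> linarith
  · filter_upwards [hae] with y hy
    have hy0 : 0 < dist ((0 : ℝ) • e) y := by
      rw [zero_smul, dist_zero_left, hy]
      exact hR
    have hc : ContinuousAt (fun r : ℝ => dist (r • e) y) 0 := by
      fun_prop
    have h1 : ContinuousAt (fun r : ℝ => om 2 (dist (r • e) y)) 0 :=
      ContinuousAt.comp (f := fun r : ℝ => dist (r • e) y) (g := om 2)
        ((om_hasDerivAt 2 hy0).continuousAt) hc
    have h2 : ContinuousAt (fun r : ℝ => om 1 (dist (r • e) y)) 0 :=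
      ContinuousAt.comp (f := fun r : ℝ => dist (r • e) y) (g := om 1)
        ((om_hasDerivAt 1 hy0).continuousAt) hc
    have h3 : ContinuousAt (fun r : ℝ => rh e y / ((n : ℝ) - 1) * om 2 (dist (r • e) y) -
        om 1 (dist (r • e) y)) 0 := (continuousAt_const.mul h1).sub h2
    exact h3.tendsto.mono_left nhdsWithin_le_nhds

lemma exists_triple {n : ℕ} (hn : 3 ≤ n) {e : En n} (he : ‖e‖ = 1) :
    ∃ e' e'' : En n, Orthonormal ℝ ![e, e', e''] := by
  have hcard : Module.finrank ℝ (En n) = Fintype.card (Fin n) := by simp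
  have hv : Orthonormal ℝ (({(⟨0, by omega⟩ : Fin n)} : Set (Fin n)).restrict
      (fun _ => e : Fin n → En n)) := by
    constructor
    · intro i
      exact he
    · intro i j hij
      exact absurd (Subsingleton.elim i j) hij
  obtain ⟨b, hb⟩ := hv.exists_orthonormalBasis_extension_of_card_eq hcard
  have hb0 : b ⟨0, by omega⟩ = e := hb _ rfl
  refine ⟨b ⟨1, by omega⟩, b ⟨2, by omega⟩, ?_⟩
  have h1 := b.orthonormal.comp (![⟨0, by omega⟩, ⟨1, by omega⟩, ⟨2, by omega⟩] : Fin 3 → Fin n)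
    (by
      intro i j hij
      fin_cases i <;> fin_cases j <;> simp_all)
  have h2 : (b : Fin n → En n) ∘ (![⟨0, by omega⟩, ⟨1, by omega⟩, ⟨2, by omega⟩] : Fin 3 → Fin n) =
      ![e, b ⟨1, by omega⟩, b ⟨2, by omega⟩] := by
    funext i
    fin_cases i
    · simp [hb0]
    · simp
    · simp
  rw [← h2]
  exact h1

lemma ff_zero (hA : AVG) {n : ℕ} (hn : 3 ≤ n) {e : En n} (he : ‖e‖ = 1) {R : ℝ} (hR : 0 < R) :
    FF e R 0 = Real.exp (-R) * (R - ((n : ℝ) - 1)) / (n * R) := by
  obtain ⟨hprob, hae, -⟩ := fSPH1 n (by omega) R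
  have hae := hae hR.le
  have hn' : (3 : ℝ) ≤ n := by exact_mod_cast hn
  obtain ⟨e', e'', hort⟩ := exists_triple hn he
  obtain ⟨-, hmom, -⟩ := hA n hn e e' e'' hort R 0 hR.le
  have hrhint : Integrable (rh e) (sphUnif n R) := by
    refine Integrable.mono' (integrable_const (R ^ 2)) (measurable_rh e).aestronglyMeasurable ?_
    filter_upwards [hae] with y hy
    have h1 := rh_nonneg he y
    have h2 := rh_le e y
    rw [hy] at h2
    rwa [Real.norm_eq_abs, abs_of_nonneg h1]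
  have h1 : FF e R 0 = ∫ y, (om 2 R / ((n : ℝ) - 1) * rh e y - om 1 R) ∂(sphUnif n R) := by
    unfold FF
    refine integral_congr_ae ?_
    filter_upwards [hae] with y hy
    rw [zero_smul, dist_zero_left, hy]
    ring
  rw [h1, integral_sub (hrhint.const_mul _) (integrable_const _), integral_const_mul, hmom]
  simp only [integral_const, probReal_univ, smul_eq_mul, one_mul]
  rw [om_succ_succ 0 R, om_one, om_zero]
  have hn1 : (n : ℝ) - 1 ≠ 0 := by linarith
  have hn0 : (n : ℝ) ≠ 0 := by linarith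
  field_simp
  push_cast
  ring

theorem outer : PDER → SDER → AVG → OUTER := by
  intro _ hS hA n hn e he R hR
  have key : ∀ r : ℝ, 0 < r → r ≤ R / 2 → PD e R r / r = FF e R r := by
    intro r hr hr2
    rw [(hS n hn e he R r hR.le hr (by intro h; linarith)).1]
    field_simp
  refine ⟨?_, ?_⟩
  · intro r₁ r₂ hr₁ h12 hr₂
    rw [key r₁ hr₁ (h12.trans hr₂), key r₂ (hr₁.trans_le h12) hr₂]
    exact ff_mono hS hn he hR hr₁ h12 hr₂
  · intro r hr hr2
    rw [key r hr hr2, ← ff_zero hA hn he hR]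
    have hlim : Tendsto (fun t : ℝ => FF e R t - R ^ 2 * om 3 (R / 2) * (r ^ 2 - t ^ 2))
        (𝓝[>] 0) (𝓝 (FF e R 0 - R ^ 2 * om 3 (R / 2) * (r ^ 2 - 0 ^ 2))) := by
      refine (ff_tendsto hn he hR).sub ?_
      have hc : ContinuousAt (fun t : ℝ => R ^ 2 * om 3 (R / 2) * (r ^ 2 - t ^ 2)) 0 := by
        fun_prop
      exact hc.tendsto.mono_left nhdsWithin_le_nhds
    have hle : FF e R 0 - R ^ 2 * om 3 (R / 2) * (r ^ 2 - 0 ^ 2) ≤ FF e R r := by
      refine le_of_tendsto hlim ?_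
      have h1 : ∀ᶠ t : ℝ in 𝓝[>] 0, t ∈ Ioi (0 : ℝ) := self_mem_nhdsWithin
      have h2 : ∀ᶠ t : ℝ in 𝓝[>] 0, t ≤ r := nhdsWithin_le_nhds (Iic_mem_nhds hr)
      filter_upwards [h1, h2] with t ht ht2
      have := ff_mono hS hn he hR ht ht2 hr2
      linarith
    have h0 : (0 : ℝ) ^ 2 = 0 := by norm_num
    rw [h0, sub_zero] at hle
    exact hle

end Pool.Agent.Helper32.MM5
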